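import Pool.Agent.Q89.FK.Powers
import Pool.Agent.Q89.FK.Char
import Pool.Agent.H254R2.FP_GADC
import Pool.Agent.H898R3.Mix
import Pool.Agent.H923R2.FZ.All
import Pool.Agent.H308R2.ZS.All
import Pool.Agent.H308R2.ZS.Final

/-!
# Infinite reduced free products which absorb neither `C([0,1])` nor the Jiang–Su algebra

Idea.  Let `C_k = ℂ p_k ⊕ ℂ (1 - p_k)` with the trace of `p_k` equal to `t_k` and `∑ t_k < 1`.
If `h = p_0 + ⋯ + p_{n-1}` were invertible in `A`, then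
`1 = τ(h h⁻¹) = ∑ τ(p_k h⁻¹ p_k) ≤ ∑ τ(p_k) < 1`, as `p_k h⁻¹ p_k ≤ p_k`.  Hence the `p_k` have common
approximate null vectors, and `A` has a character (which kills all `p_k`).
The algebra `C([0,1]) * A` has no character: the averages of `uⁿ (p_0 - t_0) u⁻ⁿ` over `n`, for the
canonical unitary `u` of `C([0,1])`, tend to zero in norm (Powers), so that a character would map the
projection `p_0` to `t_0`, which is neither `0` nor `1`.  Nor has `Z * A`, as it contains the simple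
algebra `Z`.
-/

set_option autoImplicit false

open scoped ComplexConjugate ComplexOrder Kronecker Matrix.Norms.L2Operator

noncomputable section

namespace Pool.Agent.Results.MP_88a42c_an.NoAbsorption

/-- The dimension drop algebra `Z_{p,q}`: continuous functions `f : [0,1] → M_p ⊗ M_q` with
`f(0) ∈ M_p ⊗ 1` and `f(1) ∈ 1 ⊗ M_q`. -/
def dimDrop (p q : ℕ) :
    StarSubalgebra ℂ C(unitInterval, Matrix (Fin p × Fin q) (Fin p × Fin q) ℂ) where
  carrier := {f | (∃ a : Matrix (Fin p) (Fin p) ℂ, f 0 = a ⊗ₖ (1 : Matrix (Fin q) (Fin q) ℂ)) ∧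
    ∃ b : Matrix (Fin q) (Fin q) ℂ, f 1 = (1 : Matrix (Fin p) (Fin p) ℂ) ⊗ₖ b}
  mul_mem' := (Pool.Agent.H923R2.FZ.ddrop p q).mul_mem'
  add_mem' := (Pool.Agent.H923R2.FZ.ddrop p q).add_mem'
  algebraMap_mem' := (Pool.Agent.H923R2.FZ.ddrop p q).algebraMap_mem'
  star_mem' := (Pool.Agent.H923R2.FZ.ddrop p q).star_mem'

/-- `t` is a tracial state. -/
structure IsTracialState {A : Type} [CStarAlgebra A] (t : A →ₗ[ℂ] ℂ) : Prop where
  one : t 1 = 1
  comm : ∀ x y, t (x * y) = t (y * x)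
  pos : ∀ x, 0 ≤ t (star x * x)

/-- `t` is faithful. -/
def IsFaithful {A : Type} [CStarAlgebra A] (t : A →ₗ[ℂ] ℂ) : Prop :=
  ∀ x, t (star x * x) = 0 → x = 0

/-- `Z` is the Jiang–Su algebra: a simple unital C*-algebra with a unique tracial state, which is
the closure of an increasing union of subalgebras isomorphic to prime dimension drop algebras
`Z_{n,n+1}` with `n → ∞`. -/
structure IsJiangSu (Z : Type) [CStarAlgebra Z] : Prop where
  nontrivial : Nontrivial Z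
  simple : ∀ I : TwoSidedIdeal Z, IsClosed (I : Set Z) → I = ⊥ ∨ I = ⊤
  trace : ∃! t : Z →ₗ[ℂ] ℂ, IsTracialState t
  lim : ∃ (n : ℕ → ℕ) (D : ℕ → StarSubalgebra ℂ Z), Filter.Tendsto n Filter.atTop Filter.atTop ∧
    Monotone D ∧ (∀ k, Nonempty (D k ≃⋆ₐ[ℂ] dimDrop (n k + 1) (n k + 2))) ∧
    (⨆ k, D k).topologicalClosure = ⊤

/-- `(A, φ)` with the embeddings `e j : D j → A` is the reduced free product (Avitzour, Voiculescu)
of the `(D j, t j)`: `φ` is a state which restricts to `t j` on `D j`, the `D j` are free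
with respect to `φ` (alternating products of centred elements have expectation zero), they generate
`A` as a C*-algebra, and the GNS representation of `φ` is faithful. -/
structure IsInfiniteFreeProduct {J : Type} {D : J → Type} [∀ j, CStarAlgebra (D j)]
    (t : ∀ j, D j → ℂ) {A : Type} [CStarAlgebra A] (φ : A →ₗ[ℂ] ℂ) (e : ∀ j, D j →⋆ₐ[ℂ] A) :
    Prop where
  one : φ 1 = 1
  pos : ∀ x, 0 ≤ φ (star x * x)
  marginal : ∀ j x, φ (e j x) = t j x
  free : ∀ w : List (Σ j, D j), w ≠ [] → w.IsChain (fun a b => a.1 ≠ b.1) →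
    (∀ z ∈ w, t z.1 z.2 = 0) → φ ((w.map fun z => e z.1 z.2).prod) = 0
  generating : (⨆ j, (e j).range).topologicalClosure = (⊤ : StarSubalgebra ℂ A)
  gns_faithful : ∀ a, (∀ x, φ (star (a * x) * (a * x)) = 0) → a = 0

/-- The value of an embedded letter. -/
def letter {A B E : Type} [CStarAlgebra A] [CStarAlgebra B] [CStarAlgebra E] (i : A →⋆ₐ[ℂ] E)
    (j : B →⋆ₐ[ℂ] E) : A ⊕ B → E
  | Sum.inl a => i a
  | Sum.inr b => j b

/-- `(E, θ)` with the embeddings `i : A → E` and `j : B → E` is the reduced free product of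
`(A, φ)` and `(B, ψ)`. -/
structure IsReducedFreeProduct {A B : Type} [CStarAlgebra A] [CStarAlgebra B] (φ : A → ℂ)
    (ψ : B → ℂ) {E : Type} [CStarAlgebra E] (θ : E →ₗ[ℂ] ℂ) (i : A →⋆ₐ[ℂ] E)
    (j : B →⋆ₐ[ℂ] E) : Prop where
  one : θ 1 = 1
  pos : ∀ x, 0 ≤ θ (star x * x)
  left : ∀ a, θ (i a) = φ a
  right : ∀ b, θ (j b) = ψ b
  free : ∀ w : List (A ⊕ B), w ≠ [] → w.IsChain (fun x y => x.isLeft ≠ y.isLeft) →
    (∀ z ∈ w, Sum.elim φ ψ z = 0) → θ ((w.map (letter i j)).prod) = 0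
  generating : (i.range ⊔ j.range).topologicalClosure = (⊤ : StarSubalgebra ℂ E)
  gns_faithful : ∀ a, (∀ x, θ (star (a * x) * (a * x)) = 0) → a = 0

/-- `E` is (the C*-algebra of) the reduced free product of `(A, φ)` and `(B, ψ)`. -/
def IsFreeProduct {A B : Type} [CStarAlgebra A] [CStarAlgebra B] (φ : A → ℂ) (ψ : B → ℂ)
    (E : Type) [CStarAlgebra E] : Prop :=
  ∃ (θ : E →ₗ[ℂ] ℂ) (i : A →⋆ₐ[ℂ] E) (j : B →⋆ₐ[ℂ] E), IsReducedFreeProduct φ ψ θ i j

/-- The reduced free product of `(A, φ)` and `(B, ψ)` exists. -/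
def HasFreeProduct {A B : Type} [CStarAlgebra A] [CStarAlgebra B] (φ : A → ℂ) (ψ : B → ℂ) :
    Prop :=
  ∃ (E : Type) (_ : CStarAlgebra E), IsFreeProduct φ ψ E

/-- The Lebesgue trace `f ↦ ∫₀¹ f` on `C([0,1])`. -/
def leb (f : C(unitInterval, ℂ)) : ℂ := ∫ x : unitInterval, f x

/-- The state `(a, b) ↦ t a + (1 - t) b` on `ℂ ⊕ ℂ`. -/
def wt (t : ℝ) : ℂ × ℂ →ₗ[ℂ] ℂ :=
  (t : ℂ) • LinearMap.fst ℂ ℂ ℂ + ((1 - t : ℝ) : ℂ) • LinearMap.snd ℂ ℂ ℂ

theorem wt_apply (t : ℝ) (x : ℂ × ℂ) : wt t x = t * x.1 + (1 - t) * x.2 := by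
  simp [wt]

open Pool.Agent.H923R2 Pool.Agent.H898R3.Mix

theorem toTS {A : Type} [CStarAlgebra A] {t : A →ₗ[ℂ] ℂ} (h : IsTracialState t) : FZ.IsTS t :=
  ⟨h.one, h.comm, h.pos⟩

theorem ofTS {A : Type} [CStarAlgebra A] {t : A →ₗ[ℂ] ℂ} (h : FZ.IsTS t) : IsTracialState t :=
  ⟨h.1, h.2.1, h.2.2⟩

theorem toJS {Z : Type} [CStarAlgebra Z] (h : IsJiangSu Z) : FZ.IsJS Z := by
  obtain ⟨t, ht, hu⟩ := h.trace
  exact ⟨h.nontrivial, h.simple, ⟨t, toTS ht, fun s hs => hu s (ofTS hs)⟩, h.lim⟩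

/-! ### conversions -/

theorem gen_eq {J : Type} {D : J → Type} [∀ j, CStarAlgebra (D j)] {A : Type} [CStarAlgebra A]
    (e : ∀ j, D j →⋆ₐ[ℂ] A) :
    (⨆ j, (e j).range) = StarAlgebra.adjoin ℂ (⋃ j, Set.range (e j)) := by
  apply le_antisymm
  · refine iSup_le fun j => ?_
    rintro x ⟨y, rfl⟩
    exact StarAlgebra.subset_adjoin ℂ _ (Set.mem_iUnion.2 ⟨j, y, rfl⟩)
  · refine StarAlgebra.adjoin_le ?_
    refine Set.iUnion_subset fun j => ?_
    rintro x ⟨y, rfl⟩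
    exact (le_iSup (fun j => (e j).range) j) ⟨y, rfl⟩

theorem inf_toRFP {J : Type} {D : J → Type} [∀ j, CStarAlgebra (D j)] {A : Type}
    [CStarAlgebra A] {t : ∀ j, D j → ℂ} {φ : A →ₗ[ℂ] ℂ} {e : ∀ j, D j →⋆ₐ[ℂ] A}
    (h : IsInfiniteFreeProduct t φ e) : FZ.IsRFP D t φ e where
  one := h.one
  nonneg := h.pos
  tr := h.marginal
  free := h.free
  gen := by rw [← gen_eq]; exact h.generating
  gns := h.gns_faithful

theorem inf_ofRFP {J : Type} {D : J → Type} [∀ j, CStarAlgebra (D j)] {A : Type}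
    [CStarAlgebra A] {t : ∀ j, D j → ℂ} {φ : A →ₗ[ℂ] ℂ} {e : ∀ j, D j →⋆ₐ[ℂ] A}
    (h : FZ.IsRFP D t φ e) : IsInfiniteFreeProduct t φ e where
  one := h.one
  pos := h.nonneg
  marginal := h.tr
  free := h.free
  generating := by rw [gen_eq]; exact h.gen
  gns_faithful := h.gns

theorem sup_eq {A B E : Type} [CStarAlgebra A] [CStarAlgebra B] [CStarAlgebra E]
    (i : A →⋆ₐ[ℂ] E) (j : B →⋆ₐ[ℂ] E) :
    i.range ⊔ j.range = StarAlgebra.adjoin ℂ (⋃ b, Set.range (ee i j b)) := by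
  apply le_antisymm
  · refine sup_le ?_ ?_
    · rintro x ⟨y, rfl⟩
      exact StarAlgebra.subset_adjoin ℂ _ (Set.mem_iUnion.2 ⟨true, y, rfl⟩)
    · rintro x ⟨y, rfl⟩
      exact StarAlgebra.subset_adjoin ℂ _ (Set.mem_iUnion.2 ⟨false, y, rfl⟩)
  · refine StarAlgebra.adjoin_le ?_
    refine Set.iUnion_subset ?_
    rintro (_ | _)
    · rintro x ⟨y, rfl⟩
      exact (le_sup_right : j.range ≤ i.range ⊔ j.range) ⟨y, rfl⟩
    · rintro x ⟨y, rfl⟩
      exact (le_sup_left : i.range ≤ i.range ⊔ j.range) ⟨y, rfl⟩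

/-- a letter of the disjoint union -/
def toSum {A B : Type} : (Σ b, DD A B b) → A ⊕ B
  | ⟨true, a⟩ => Sum.inl a
  | ⟨false, b⟩ => Sum.inr b

/-- converse -/
def ofSum {A B : Type} : A ⊕ B → (Σ b, DD A B b)
  | Sum.inl a => ⟨true, a⟩
  | Sum.inr b => ⟨false, b⟩

theorem toRFP {A B E : Type} [CStarAlgebra A] [CStarAlgebra B] [CStarAlgebra E] {φ : A → ℂ}
    {ψ : B → ℂ} {θ : E →ₗ[ℂ] ℂ} {i : A →⋆ₐ[ℂ] E} {j : B →⋆ₐ[ℂ] E}
    (h : IsReducedFreeProduct φ ψ θ i j) : FZ.IsRFP (DD A B) (tt φ ψ) θ (ee i j) where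
  one := h.one
  nonneg := h.pos
  tr := by
    rintro (_ | _) x
    · exact h.right x
    · exact h.left x
  free := by
    intro w hw hc hz
    have := h.free (w.map toSum) (by simpa using hw)
      (by
        rw [List.isChain_map]
        refine hc.imp ?_
        rintro ⟨(_ | _), x⟩ ⟨(_ | _), y⟩ hxy
        · exact absurd rfl hxy
        · exact Bool.false_ne_true
        · exact Bool.false_ne_true.symm
        · exact absurd rfl hxy)
      (by
        intro z hz'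
        obtain ⟨⟨(_ | _), y⟩, hy, rfl⟩ := List.mem_map.1 hz'
        · exact hz _ hy
        · exact hz _ hy)
    rw [List.map_map] at this
    rw [← this]
    congr 2
    refine List.map_congr_left ?_
    rintro ⟨(_ | _), y⟩ _ <;> rfl
  gen := by rw [← sup_eq]; exact h.generating
  gns := h.gns_faithful

theorem ofRFP {A B E : Type} [CStarAlgebra A] [CStarAlgebra B] [CStarAlgebra E] {φ : A → ℂ}
    {ψ : B → ℂ} {θ : E →ₗ[ℂ] ℂ} {i : A →⋆ₐ[ℂ] E} {j : B →⋆ₐ[ℂ] E}
    (h : FZ.IsRFP (DD A B) (tt φ ψ) θ (ee i j)) : IsReducedFreeProduct φ ψ θ i j where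
  one := h.one
  pos := h.nonneg
  left := fun a => h.tr true a
  right := fun b => h.tr false b
  free := by
    intro w hw hc hz
    have := h.free (w.map ofSum) (by simpa using hw)
      (by
        rw [List.isChain_map]
        refine hc.imp ?_
        rintro (x | x) (y | y) hxy
        · exact absurd rfl hxy
        · exact Bool.false_ne_true.symm
        · exact Bool.false_ne_true
        · exact absurd rfl hxy)
      (by
        intro z hz'
        obtain ⟨(y | y), hy, rfl⟩ := List.mem_map.1 hz'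
        · exact hz _ hy
        · exact hz _ hy)
    rw [List.map_map] at this
    rw [← this]
    congr 2
    refine List.map_congr_left ?_
    rintro (y | y) _ <;> rfl
  generating := by rw [sup_eq]; exact h.gen
  gns_faithful := h.gns

/-- existence of the reduced free product -/
theorem exists_rfp {A B : Type} [CStarAlgebra A] [CStarAlgebra B] (φ : A →ₗ[ℂ] ℂ)
    (ψ : B →ₗ[ℂ] ℂ) (hφ : FP.FTS φ) (hψ : FP.FTS ψ) : HasFreeProduct φ ψ := by
  let tD : ∀ b, DD A B b →ₗ[ℂ] ℂ := fun b => match b with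
    | true => φ
    | false => ψ
  have htD : ∀ b, FP.FTS (tD b) := by
    rintro (_ | _)
    · exact hψ
    · exact hφ
  obtain ⟨E, iE, θ, e, hR⟩ := FZ.All.ex Bool (DD A B) (instDD A B) tD htD
  have h1 := FZ.T_GNSB.t_GNSB Bool (DD A B) (fun b => tD b) E θ e hR
  have h2 : (fun b => (tD b : DD A B b → ℂ)) = tt φ ψ := by
    funext b
    cases b <;> rfl
  have h3 : e = ee (e true) (e false) := by
    funext b
    cases b <;> rfl
  rw [h2, h3] at h1
  exact ⟨E, iE, θ, e true, e false, ofRFP h1⟩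

/-! ### the weights -/

theorem fts_wt {t : ℝ} (h0 : 0 < t) (h1 : t < 1) : FP.FTS (wt t) where
  one := by rw [wt_apply]; simp
  comm x y := by rw [mul_comm]
  str x := by
    rw [wt_apply, wt_apply, map_add, map_mul, map_mul, Complex.conj_ofReal, map_sub, map_one,
      Complex.conj_ofReal]
    rfl
  nonneg x := by
    rw [wt_apply]
    have e1 : (star x * x).1 = ((‖x.1‖ ^ 2 : ℝ) : ℂ) := by
      change conj x.1 * x.1 = _
      rw [Complex.conj_mul']; push_cast; rfl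
    have e2 : (star x * x).2 = ((‖x.2‖ ^ 2 : ℝ) : ℂ) := by
      change conj x.2 * x.2 = _
      rw [Complex.conj_mul']; push_cast; rfl
    rw [e1, e2]
    have : ((t : ℂ) * ((‖x.1‖ ^ 2 : ℝ) : ℂ) + (1 - t) * ((‖x.2‖ ^ 2 : ℝ) : ℂ)) =
      ((t * ‖x.1‖ ^ 2 + (1 - t) * ‖x.2‖ ^ 2 : ℝ) : ℂ) := by push_cast; ring
    rw [this, Complex.ofReal_re]
    have : 0 ≤ 1 - t := by linarith
    positivity
  faith x hx := by
    rw [wt_apply] at hx
    have e1 : (star x * x).1 = ((‖x.1‖ ^ 2 : ℝ) : ℂ) := by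
      change conj x.1 * x.1 = _
      rw [Complex.conj_mul']; push_cast; rfl
    have e2 : (star x * x).2 = ((‖x.2‖ ^ 2 : ℝ) : ℂ) := by
      change conj x.2 * x.2 = _
      rw [Complex.conj_mul']; push_cast; rfl
    rw [e1, e2] at hx
    have : ((t : ℂ) * ((‖x.1‖ ^ 2 : ℝ) : ℂ) + (1 - t) * ((‖x.2‖ ^ 2 : ℝ) : ℂ)) =
      ((t * ‖x.1‖ ^ 2 + (1 - t) * ‖x.2‖ ^ 2 : ℝ) : ℂ) := by push_cast; ring
    rw [this, Complex.ofReal_re] at hx
    have h2 : 0 < 1 - t := by linarith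
    have h3 : 0 ≤ t * ‖x.1‖ ^ 2 := by positivity
    have h4 : 0 ≤ (1 - t) * ‖x.2‖ ^ 2 := by positivity
    have h5 : t * ‖x.1‖ ^ 2 = 0 := by linarith
    have h6 : (1 - t) * ‖x.2‖ ^ 2 = 0 := by linarith
    have h7 : ‖x.1‖ = 0 := by
      rcases mul_eq_zero.1 h5 with h | h
      · exact absurd h h0.ne'
      · exact pow_eq_zero_iff two_ne_zero |>.1 h
    have h8 : ‖x.2‖ = 0 := by
      rcases mul_eq_zero.1 h6 with h | h
      · exact absurd h h2.ne'
      · exact pow_eq_zero_iff two_ne_zero |>.1 h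
    exact Prod.ext (norm_eq_zero.1 h7) (norm_eq_zero.1 h8)
  bound x := by
    rw [wt_apply]
    have h2 : 0 ≤ 1 - t := by linarith
    have e : (1 - (t : ℂ)) = ((1 - t : ℝ) : ℂ) := by push_cast; rfl
    rw [e]
    calc ‖(t : ℂ) * x.1 + ((1 - t : ℝ) : ℂ) * x.2‖ ≤ ‖(t : ℂ) * x.1‖ + ‖((1 - t : ℝ) : ℂ) * x.2‖ :=
          norm_add_le _ _
      _ = t * ‖x.1‖ + (1 - t) * ‖x.2‖ := by
          rw [norm_mul, norm_mul, Complex.norm_real, Complex.norm_real, Real.norm_eq_abs,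
            Real.norm_eq_abs, abs_of_pos h0, abs_of_nonneg h2]
      _ ≤ t * ‖x‖ + (1 - t) * ‖x‖ := by
          gcongr
          · exact norm_fst_le x
          · exact norm_snd_le x
      _ = ‖x‖ := by ring

theorem ts_wt {t : ℝ} (h0 : 0 < t) (h1 : t < 1) : IsTracialState (wt t) ∧ IsFaithful (wt t) := by
  have h := fts_wt h0 h1
  have hr : ∀ x, wt t (star x * x) = (((wt t (star x * x)).re : ℝ) : ℂ) := by
    intro x
    have h2 := h.str (star x * x)
    rw [star_mul, star_star] at h2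
    exact (Complex.conj_eq_iff_re.1 h2.symm).symm
  refine ⟨⟨h.one, h.comm, fun x => ?_⟩, fun x hx => h.faith x (by rw [hx, Complex.zero_re])⟩
  rw [hr]
  exact_mod_cast h.nonneg x

/-! ### the Haar unitary -/

theorem leb_pow (n : ℕ) (hn : n ≠ 0) : leb (FP.T_GADC.uC ^ n) = 0 := by
  have h1 : ∀ x : unitInterval, (FP.T_GADC.uC ^ n) x =
      Complex.exp (2 * Real.pi * Complex.I * n * (x : ℝ)) := by
    intro x
    rw [ContinuousMap.pow_apply]
    show (Complex.exp (2 * Real.pi * Complex.I * (x : ℝ))) ^ n = _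
    rw [← Complex.exp_nat_mul]
    congr 1
    ring
  have hc : (2 * Real.pi * Complex.I * n : ℂ) ≠ 0 := by
    simp [Real.pi_ne_zero, hn]
  unfold leb
  simp_rw [h1]
  rw [FP.T_GADC.int_unit (fun x : ℝ => Complex.exp (2 * Real.pi * Complex.I * n * (x : ℝ))),
    integral_exp_mul_complex hc]
  have h2 : Complex.exp (2 * Real.pi * Complex.I * n * ((1 : ℝ) : ℂ)) = 1 := by
    rw [Complex.exp_eq_one_iff]
    exact ⟨n, by push_cast; ring⟩
  rw [h2]
  simp

/-- no character on a reduced free product with `C([0,1])` -/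
theorem no_char_leb {B E : Type} [CStarAlgebra B] [CStarAlgebra E] {ψ : B →ₗ[ℂ] ℂ}
    (hE : IsFreeProduct leb ψ E) (q : B) (hq : q * q = q) (h0 : ψ q ≠ 0) (h1 : ψ q ≠ 1)
    (hψ1 : ψ 1 = 1) (χ : E →⋆ₐ[ℂ] ℂ) : False := by
  obtain ⟨θ, i, j, h⟩ := hE
  have hpos : ∀ a : E, ∃ r : ℝ, 0 ≤ r ∧ θ (star a * a) = r := by
    intro a
    obtain ⟨h2, h3⟩ := Complex.nonneg_iff.1 (h.pos a)
    exact ⟨(θ (star a * a)).re, h2, Complex.ext rfl (by rw [← h3]; simp)⟩
  have hF : Pool.Agent.TH254.FP.Free θ (fun b : Bool => cond b i.range j.range) := by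
    intro l hl hA
    choose! f hf using (fun (b : Bool) (x : E) (hx : x ∈ (cond b i.range j.range : StarSubalgebra ℂ E)) =>
      (show ∃ y : C(unitInterval, ℂ) ⊕ B, letter i j y = x ∧ y.isLeft = b by
        cases b with
        | true => obtain ⟨y, hy⟩ := hx; exact ⟨Sum.inl y, hy, rfl⟩
        | false => obtain ⟨y, hy⟩ := hx; exact ⟨Sum.inr y, hy, rfl⟩))
    have h2 := h.free (l.map fun p => f p.1 p.2) (by simpa using hl)
      (by
        rw [List.isChain_map]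
        have h3 := hA.alt
        rw [List.isChain_iff_getElem] at h3 ⊢
        intro k hk
        have h4 := h3 k hk
        rw [(hf _ _ (hA.mem _ (List.getElem_mem _))).2,
          (hf _ _ (hA.mem _ (List.getElem_mem _))).2]
        exact h4)
      (by
        intro z hz
        obtain ⟨p, hp, rfl⟩ := List.mem_map.1 hz
        have h4 := hA.cen p hp
        have h5 := (hf _ _ (hA.mem p hp)).1
        rw [← h5] at h4
        cases hy : f p.1 p.2 with
        | inl y => rw [hy] at h4; exact (h.left y).symm.trans h4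
        | inr y => rw [hy] at h4; exact (h.right y).symm.trans h4)
    rw [List.map_map] at h2
    rw [Pool.Agent.TH254.FP.vl, ← h2]
    congr 2
    refine List.map_congr_left fun p hp => ?_
    exact ((hf _ _ (hA.mem p hp)).1).symm
  have hgen : (StarAlgebra.adjoin ℂ (⋃ b : Bool,
      ((cond b i.range j.range : StarSubalgebra ℂ E) : Set E))).topologicalClosure = ⊤ := by
    rw [eq_top_iff, ← h.generating]
    refine StarSubalgebra.topologicalClosure_mono (sup_le ?_ ?_)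
    · intro x hx
      exact StarAlgebra.subset_adjoin ℂ _ (Set.mem_iUnion.2 ⟨true, hx⟩)
    · intro x hx
      exact StarAlgebra.subset_adjoin ℂ _ (Set.mem_iUnion.2 ⟨false, hx⟩)
  have hu := Unitary.mem_iff.1 FP.T_GADC.uC_mem
  have key := Q89.FK.char_zero (i := true) (j := false) h.one hpos h.gns_faithful hF hgen
    (by decide) (i FP.T_GADC.uC) (j (q - ψ q • 1)) ⟨_, rfl⟩
    (by rw [← map_star, ← map_mul, hu.1, map_one])
    (fun n hn => by rw [← map_pow, h.left]; exact leb_pow n hn) ⟨_, rfl⟩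
    (by rw [h.right, map_sub, map_smul, hψ1, smul_eq_mul, mul_one, sub_self]) χ
  rw [map_sub, map_sub, map_smul, map_smul, map_one, map_one, smul_eq_mul, mul_one,
    sub_eq_zero] at key
  have h2 : χ (j q) * χ (j q) = χ (j q) := by rw [← map_mul, ← map_mul, hq]
  rw [key] at h2
  have h3 : ψ q * (ψ q - 1) = 0 := by rw [mul_sub, h2, mul_one, sub_self]
  rcases mul_eq_zero.1 h3 with h4 | h4
  · exact h0 h4
  · exact h1 (sub_eq_zero.1 h4)

/-- the Jiang–Su algebra has no character -/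
theorem no_char_js {Z : Type} [CStarAlgebra Z] (hZ : IsJiangSu Z) (χ : Z →⋆ₐ[ℂ] ℂ) : False := by
  have hcont : Continuous χ :=
    AddMonoidHomClass.continuous_of_bound χ 1 fun x => by
      rw [one_mul]; exact NonUnitalStarAlgHom.norm_apply_le χ x
  have hinj : Function.Injective χ := by
    have hcl : IsClosed ((TwoSidedIdeal.ker χ : TwoSidedIdeal Z) : Set Z) := by
      have : ((TwoSidedIdeal.ker χ : TwoSidedIdeal Z) : Set Z) = χ ⁻¹' {0} := by
        ext x
        simp [TwoSidedIdeal.mem_ker]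
      rw [this]
      exact isClosed_singleton.preimage hcont
    rcases hZ.simple _ hcl with h | h
    · exact (TwoSidedIdeal.ker_eq_bot _).1 h
    · exfalso
      have : (1 : Z) ∈ TwoSidedIdeal.ker χ := by rw [h]; trivial
      rw [TwoSidedIdeal.mem_ker, map_one] at this
      exact one_ne_zero this
  obtain ⟨n, D, -, -, hD, -⟩ := hZ.lim
  obtain ⟨Φ⟩ := hD 0
  have hf : (⟨fun s : unitInterval => ((s : ℝ) : ℂ) •
      (1 : Matrix (Fin (n 0 + 1) × Fin (n 0 + 2)) (Fin (n 0 + 1) × Fin (n 0 + 2)) ℂ),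
      by fun_prop⟩ : C(unitInterval, Matrix (Fin (n 0 + 1) × Fin (n 0 + 2))
        (Fin (n 0 + 1) × Fin (n 0 + 2)) ℂ)) ∈ dimDrop (n 0 + 1) (n 0 + 2) := by
    refine ⟨⟨0, ?_⟩, ⟨1, ?_⟩⟩
    · simp
    · simp
  set f : dimDrop (n 0 + 1) (n 0 + 2) := ⟨_, hf⟩ with hfdef
  have h1 : Φ.symm f = algebraMap ℂ (D 0) (χ (Φ.symm f : Z)) := by
    apply Subtype.ext
    apply hinj
    exact (AlgHomClass.commutes χ (χ (Φ.symm f : Z))).symm
  have h2 : f = algebraMap ℂ (dimDrop (n 0 + 1) (n 0 + 2)) (χ (Φ.symm f : Z)) := by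
    have := congrArg Φ h1
    rw [StarAlgEquiv.apply_symm_apply, AlgHomClass.commutes Φ] at this
    exact this
  rw [Algebra.algebraMap_eq_smul_one] at h2
  set c := χ (Φ.symm f : Z)
  have h3 : ∀ s : unitInterval, ((s : ℝ) : ℂ) •
      (1 : Matrix (Fin (n 0 + 1) × Fin (n 0 + 2)) (Fin (n 0 + 1) × Fin (n 0 + 2)) ℂ) =
      c • (1 : Matrix (Fin (n 0 + 1) × Fin (n 0 + 2)) (Fin (n 0 + 1) × Fin (n 0 + 2)) ℂ) := by
    intro s
    have := congrArg (fun g : dimDrop (n 0 + 1) (n 0 + 2) => (g : C(unitInterval, Matrix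
      (Fin (n 0 + 1) × Fin (n 0 + 2)) (Fin (n 0 + 1) × Fin (n 0 + 2)) ℂ)) s) h2
    exact this
  have h4 := congrFun (congrFun (h3 0) (0, 0)) (0, 0)
  have h5 := congrFun (congrFun (h3 1) (0, 0)) (0, 0)
  simp at h4 h5
  rw [← h4] at h5
  exact one_ne_zero h5

/-- Weights `t k > 0` with `∑ t k < 1`. -/
def SmallWeights (t : ℕ → ℝ) : Prop := (∀ k, 0 < t k) ∧ Summable t ∧ ∑' k, t k < 1

/-- **Infinite reduced free products which absorb neither `C([0,1])` nor `Z`.**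
There are sequences of weights `t k > 0` with `∑ t k < 1`, and for each of them: the functionals
`σ k : (a, b) ↦ t k * a + (1 - t k) * b` are faithful tracial states on `C k = ℂ ⊕ ℂ`, the reduced
free product `A` of the `(C k, σ k)` exists, and neither the reduced free product
`C([0,1]) * A` nor, for the Jiang–Su algebra `Z`, the reduced free product `Z * A` (which both exist)
is *-isomorphic to `A`. -/
theorem result : (∃ t : ℕ → ℝ, SmallWeights t) ∧ ∀ t : ℕ → ℝ, SmallWeights t →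
    (∀ k, IsTracialState (wt (t k)) ∧ IsFaithful (wt (t k))) ∧
    (∃ (A : Type) (_ : CStarAlgebra A) (φ : A →ₗ[ℂ] ℂ) (e : ℕ → ℂ × ℂ →⋆ₐ[ℂ] A),
      IsInfiniteFreeProduct (fun k => wt (t k)) φ e) ∧
    ∀ (A : Type) [CStarAlgebra A] (φ : A →ₗ[ℂ] ℂ) (e : ℕ → ℂ × ℂ →⋆ₐ[ℂ] A),
      IsInfiniteFreeProduct (fun k => wt (t k)) φ e →
      (HasFreeProduct leb φ ∧
        ∀ (B : Type) [CStarAlgebra B], IsFreeProduct leb φ B → IsEmpty (A ≃⋆ₐ[ℂ] B)) ∧
      ∀ (Z : Type) [CStarAlgebra Z], IsJiangSu Z → ∀ τ : Z →ₗ[ℂ] ℂ, IsTracialState τ →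
        HasFreeProduct τ φ ∧
        ∀ (B : Type) [CStarAlgebra B], IsFreeProduct τ φ B → IsEmpty (A ≃⋆ₐ[ℂ] B) := by
  refine ⟨⟨fun k => (1 / 2) ^ k / 4, fun k => by positivity, ?_, ?_⟩, ?_⟩
  · exact summable_geometric_two.div_const 4
  · rw [tsum_div_const, tsum_geometric_two]
    norm_num
  intro t ⟨ht0, hts, ht1⟩
  have hlt : ∀ n, ∑ k ∈ Finset.range n, t k < 1 := fun n =>
    (hts.sum_le_tsum _ fun k _ => (ht0 k).le).trans_lt ht1
  have ht2 : ∀ k, t k < 1 := fun k => by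
    have h1 := hlt (k + 1)
    rw [Finset.sum_range_succ] at h1
    have h2 : 0 ≤ ∑ j ∈ Finset.range k, t j := Finset.sum_nonneg fun j _ => (ht0 j).le
    linarith
  refine ⟨fun k => ts_wt (ht0 k) (ht2 k), ?_, ?_⟩
  · obtain ⟨A, iA, φ, e, h⟩ := FZ.All.ex ℕ (fun _ => ℂ × ℂ) (fun _ => inferInstance)
      (fun k => wt (t k)) (fun k => fts_wt (ht0 k) (ht2 k))
    exact ⟨A, iA, φ, e, inf_ofRFP (FZ.T_GNSB.t_GNSB ℕ _ _ A φ e h)⟩
  intro A _ φ e h
  have hR : FP.RFP (J := ℕ) (fun _ => ℂ × ℂ) (fun k => wt (t k)) φ e :=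
    FZ.T_GNSF.t_GNSF FZ.T_TRC.t_TRC ℕ _ _ A φ e (fun _ x y => by rw [mul_comm]) (inf_toRFP h)
  have hφ : FP.FTS φ := hR.fts
  have hq : ∀ k, e k (1, 0) * e k (1, 0) = e k (1, 0) := fun k => by
    rw [← map_mul, Prod.mk_mul_mk, mul_one, mul_zero]
  -- the character of `A`
  have hchar : ∃ χ : A →⋆ₐ[ℂ] ℂ, ∀ k, χ (e k (1, 0)) = 0 := by
    refine Q89.FK.exists_char_small hφ (fun k => e k (1, 0))
      (fun k => by
        rw [← map_star]
        congr 1
        exact Prod.ext (star_one ℂ) (star_zero ℂ))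
      hq ?_ ?_
    · intro n
      refine lt_of_le_of_lt (le_of_eq ?_) (hlt n)
      refine Finset.sum_congr rfl fun k _ => ?_
      rw [h.marginal, wt_apply]
      simp
    · rw [eq_top_iff, ← h.generating]
      refine StarSubalgebra.topologicalClosure_mono (iSup_le fun k => ?_)
      rintro _ ⟨x, rfl⟩
      have hx : x = x.1 • ((1 : ℂ), (0 : ℂ)) + x.2 • (1 - ((1 : ℂ), (0 : ℂ))) := by
        ext <;> simp
      have h2 : e k x = x.1 • e k (1, 0) + x.2 • (1 - e k (1, 0)) := by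
        conv_lhs => rw [hx]
        rw [map_add, map_smul, map_smul, map_sub, map_one]
      change e k x ∈ _
      rw [h2]
      have h3 : e k (1, 0) ∈ StarAlgebra.adjoin ℂ (Set.range fun k => e k (1, 0)) :=
        StarAlgebra.subset_adjoin ℂ _ ⟨k, rfl⟩
      exact add_mem (SMulMemClass.smul_mem _ h3)
        (SMulMemClass.smul_mem _ (sub_mem (one_mem _) h3))
  obtain ⟨χ, hχ⟩ := hchar
  have hψ : ∀ {Y : Type} [CStarAlgebra Y] (ω : Y → ℂ) (B : Type) [CStarAlgebra B],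
      ((B →⋆ₐ[ℂ] ℂ) → False) → IsEmpty (A ≃⋆ₐ[ℂ] B) := by
    intro Y _ ω B _ hB
    exact ⟨fun Φ => hB (χ.comp (Φ.symm : B →⋆ₐ[ℂ] A))⟩
  refine ⟨⟨?_, ?_⟩, ?_⟩
  · exact exists_rfp Pool.Agent.H308R2.ZS.lebl φ
      (Pool.Agent.H308R2.ZS.fts_lebl FZ.T_LEBF.t_LEBF) hφ
  · intro B _ hB
    refine hψ leb B fun χ' => no_char_leb hB (e 0 (1, 0)) ?_ ?_ ?_ h.one χ'
    · exact hq 0
    · rw [h.marginal, wt_apply]
      simpa using (ht0 0).ne'
    · rw [h.marginal, wt_apply]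
      intro h1
      have : (t 0 : ℂ) = 1 := by simpa using h1
      have : t 0 = 1 := by exact_mod_cast this
      exact absurd (ht2 0) (by rw [this]; exact lt_irrefl 1)
  · intro Z _ hZ τ hτ
    have hJ := Pool.Agent.H308R2.ZS.bridge Z (toJS hZ) τ (toTS hτ)
    have hF : FP.FTS τ := Pool.Agent.H308R2.ZS.all_JFT Z τ hJ
    refine ⟨exists_rfp τ φ hF hφ, fun B _ hB => ?_⟩
    obtain ⟨θ, i, j, -⟩ := hB
    exact hψ τ B fun χ' => no_char_js hZ (χ'.comp i)

end Pool.Agent.Results.MP_88a42c_an.NoAbsorption
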